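import Pool.Agent.K.MP_0cf84d_an.C0

open MeasureTheory Pool.Agent.P.MP_0cf84d_an

theorem Pool.Agent.Results.MP_0cf84d_an.Dichotomy.result (N : ℕ) (hN : 2 ≤ N)
    (Ω : Set (EuclideanSpace ℝ (Fin N))) (hΩ : IsC11Domain Ω) (p : ENNReal) (hp : (N : ENNReal) < p)
    (c h μ φ₁ : EuclideanSpace ℝ (Fin N) → ℝ) (hA : CondA Ω p c h μ)
    (ha : ¬ HasNonposSol Ω c h μ 0) (_hb : ∃ lam₀, 0 < lam₀ ∧ HasNonposSol Ω c h μ lam₀)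
    (hφ : IsPosEigenfun Ω c φ₁) (lamInf : ℝ)
    (hinf : IsGLB {lam | 0 ≤ lam ∧ HasNonposSol Ω c h μ lam} lamInf) :
    (∃ δ, 0 < δ ∧ ∀ lam ∈ Set.Ioo (lamInf - δ) lamInf, ¬ ∃ u, IsSol Ω c h μ lam u) ∨
      ∀ u, IsSol Ω c h μ lamInf u →
        ¬ ∃ ε, 0 < ε ∧ ∀ᵐ x ∂(volume.restrict Ω), ε * φ₁ x ≤ -u x := by
  rw [or_iff_not_imp_right]
  intro hu
  push Not at hu
  obtain ⟨u, hu, ε, hε, hv⟩ := hu
  exact dichotomy (by simpa using hN) hΩ (by simpa using hp) hA ha hφ hinf hu hε hv
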