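import Pool.Agent.P.MP_0cf84d_an.Q1

open MeasureTheory Pool.Agent.P.MP_0cf84d_an

theorem Pool.Agent.Results.MP_0cf84d_an.Q1Counterexample.result
    (Ω : Set (EuclideanSpace ℝ (Fin 2))) (hΩ : Ω = Metric.ball 0 1) :
    ∃ c h μ : EuclideanSpace ℝ (Fin 2) → ℝ,
      (∀ p, CondA Ω p c h μ) ∧ ¬ HasNonposSol Ω c h μ 0 ∧
      (∃ lam₀, 0 < lam₀ ∧ ∃ v, IsSol Ω c h μ lam₀ v ∧ ContinuousOn v (closure Ω) ∧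
        ∀ x ∈ Ω, v x ≤ 0) ∧
      ∀ lam : ℝ, ∃ u, IsSol Ω c h μ lam u := by
  subst hΩ
  obtain ⟨c, h, μ, μ₁, μ₂, h1, h2, h3, h4, h5, h6, h7, h8, h9⟩ := q1_main
  rw [← closure_ball _ one_ne_zero] at h8
  exact ⟨c, h, μ, fun p => ⟨(h1 p).1, (h1 p).2, h2, h3, h4, μ₁, μ₂, h5, h6⟩, h7, h8, h9⟩
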