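import Pool.Agent.P.MP_0cf84d_an.Q2

open MeasureTheory Pool.Agent.P.MP_0cf84d_an

theorem Pool.Agent.Results.MP_0cf84d_an.Q2Counterexample.result
    (Ω : Set (EuclideanSpace ℝ (Fin 2))) (hΩ : Ω = Metric.ball 0 1) :
    ∃ (c h μ φ₁ u : EuclideanSpace ℝ (Fin 2) → ℝ) (lamInf ε : ℝ),
      (∀ p, CondA Ω p c h μ) ∧ ¬ HasNonposSol Ω c h μ 0 ∧
      (∃ lam₀, 0 < lam₀ ∧ HasNonposSol Ω c h μ lam₀) ∧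
      IsGLB {lam | 0 ≤ lam ∧ HasNonposSol Ω c h μ lam} lamInf ∧
      IsPosEigenfun Ω c φ₁ ∧
      ContinuousOn u (closure Ω) ∧ IsSol Ω c h μ lamInf u ∧ (∀ x ∈ Ω, u x ≤ 0) ∧
      (∀ v, IsSol Ω c h μ lamInf v → v =ᵐ[volume.restrict Ω] u) ∧
      0 < ε ∧ ∀ x ∈ closure Ω, ε * φ₁ x ≤ -u x := by
  subst hΩ
  obtain ⟨c, h, μ, φ₁, u, μ₁, μ₂, γ, lamInf, ε, h1, h2, h3, h4, h5, h6, h7, h8, h9, ⟨a1, a2, G, a3⟩,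
    h11⟩ := q2_main
  rw [← closure_ball _ one_ne_zero] at a1 h11
  exact ⟨c, h, μ, φ₁, u, lamInf, ε, fun p => ⟨(h1 p).1, (h1 p).2, h2, h3, h4, μ₁, μ₂, h5, h6⟩,
    h7, h8, h9, ⟨a1, a2, γ, G, a3⟩, h11⟩
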